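import Pool.Agent.H834Z.FishMain

set_option autoImplicit false

namespace Pool.Agent.Results.MP_5b305c_an.ANotUniform

open Pool.Agent.H834Z.Fish

/-- Let `x_1, …, x_m` (`m ≥ 1`) be self-adjoint generators of a tracial von Neumann algebra `N`, in
standard form on `L²(N)`, with finite free Fisher information.  Let `T` be any closed operator
between the closure of `(∂_1, …, ∂_m)` and the tuple of the closures of the `∂_i`, let `Δ = T* T` and
let `R = (1 + Δ)⁻¹` (it exists and is unique).  Then `exp(-tΔ)` stays at distance `c > 0` from the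
identity on the unit ball of `N`, for all `t > 0`. -/
theorem result {H : Type*} [NormedAddCommGroup H] [InnerProductSpace ℂ H] [CompleteSpace H]
    {m : ℕ} (hm : 1 ≤ m) (N : VonNeumannAlgebra H) (Ω : H) (hN : IsStandardForm N Ω)
    (x : Fin m → H →L[ℂ] H) (hsa : ∀ i, IsSelfAdjoint (x i)) (hgen : IsGeneratedBy N x)
    (hF : FiniteFisher x Ω) (G : Submodule ℂ (H × (Fin m → HT H)))
    (hG : IsClosed (G : Set (H × (Fin m → HT H))))
    (_hmin : minGraph x Ω ⊆ (G : Set (H × (Fin m → HT H))))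
    (hmax : (G : Set (H × (Fin m → HT H))) ⊆ maxGraph x Ω) :
    ∃ R : H →L[ℂ] H, IsResolvent G R ∧ (∀ R' : H →L[ℂ] H, IsResolvent G R' → R' = R) ∧
      ∃ c : ℝ, 0 < c ∧ ∀ t : ℝ, 0 < t → ∃ y ∈ N, ‖y‖ ≤ 1 ∧ c ≤ ‖heat R t (y Ω) - y Ω‖ :=
  (resolvent_exists G hG).imp fun R hR => ⟨hR, fun _ hR' => resolvent_unique hR hR',
    main hN hgen.1 hsa ⟨0, hm⟩ hF G hmax R hR⟩

end Pool.Agent.Results.MP_5b305c_an.ANotUniform
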